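import Mathlib

namespace Pool.Agent.Results.MP_f95752_co.Counter

def Degen {V : Type} (G : SimpleGraph V) (d : ℕ) (S : Finset V) : Prop :=
  ∀ T : Finset V, T ⊆ S → T.Nonempty → ∃ v ∈ T, (G.neighborSet v ∩ (T : Set V)).ncard ≤ d

abbrev W (k : ℕ) := Option (Fin k ⊕ Fin k)

def rel {k : ℕ} : W k → W k → Prop
  | none, none => False
  | none, some (Sum.inl _) => True
  | none, some (Sum.inr _) => False
  | some (Sum.inl _), none => True
  | some (Sum.inr _), none => False
  | some (Sum.inl _), some (Sum.inl _) => False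
  | some (Sum.inl _), some (Sum.inr _) => True
  | some (Sum.inr _), some (Sum.inl _) => True
  | some (Sum.inr i), some (Sum.inr j) => i ≠ j

def H (k : ℕ) : SimpleGraph (W k) where
  Adj := rel
  symm := ⟨by
    rintro (_ | i | i) (_ | j | j) h <;> simp only [rel] at h ⊢
    exact h.symm⟩
  loopless := ⟨by rintro (_ | i | i) h <;> simp [rel] at h⟩

theorem le_of_inj {k : ℕ} {s : Set (W k)} (f : Fin k → W k) (h : s ⊆ Set.range f) :
    s.ncard ≤ k := by
  refine (Set.ncard_le_ncard h (Set.toFinite _)).trans ?_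
  rw [← Set.image_univ]
  exact (Set.ncard_image_le).trans (by simp [Set.ncard_univ])

theorem ge_of_inj {k : ℕ} {s : Set (W k)} (f : Fin k → W k) (hf : Function.Injective f)
    (h : ∀ i, f i ∈ s) : k ≤ s.ncard := by
  have : Set.range f ⊆ s := by rintro _ ⟨i, rfl⟩; exact h i
  have h2 := Set.ncard_le_ncard this (Set.toFinite _)
  rwa [Set.ncard_range_of_injective hf, Nat.card_eq_fintype_card, Fintype.card_fin] at h2

theorem degen (k : ℕ) : Degen (H k) k Finset.univ := by
  intro T _ hT
  by_cases h0 : none ∈ T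
  · refine ⟨none, h0, le_of_inj (fun i => some (Sum.inl i)) ?_⟩
    rintro (_ | j | j) ⟨h, _⟩ <;> simp [H, rel] at h ⊢
  by_cases h1 : ∃ i, some (Sum.inl i) ∈ T
  · obtain ⟨i, hi⟩ := h1
    refine ⟨_, hi, le_of_inj (fun i => some (Sum.inr i)) ?_⟩
    rintro (_ | j | j) ⟨h, h'⟩
    · exact absurd h' h0
    · simp [H, rel] at h
    · simp
  · obtain ⟨v, hv⟩ := hT
    refine ⟨v, hv, le_of_inj (fun i => some (Sum.inr i)) ?_⟩
    rintro (_ | j | j) ⟨h, h'⟩
    · exact absurd h' h0
    · exact absurd ⟨j, h'⟩ h1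
    · simp

theorem clique (d : ℕ) (S : Finset (W (d + 1))) (a : Fin (d + 1)) (ha : some (Sum.inl a) ∈ S)
    (hS : ∀ j, some (Sum.inr j) ∈ S) : ¬ Degen (H (d + 1)) d S := by
  intro h
  obtain ⟨v, hv, hc⟩ := h (insert (some (Sum.inl a))
    (Finset.univ.image (fun j => some (Sum.inr j)))) (by
      intro x hx
      simp only [Finset.mem_insert, Finset.mem_image, Finset.mem_univ, true_and] at hx
      rcases hx with rfl | ⟨j, rfl⟩
      · exact ha
      · exact hS j) ⟨_, Finset.mem_insert_self _ _⟩
  simp only [Finset.mem_insert, Finset.mem_image, Finset.mem_univ, true_and] at hv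
  refine absurd (le_trans ?_ hc) (Nat.not_succ_le_self d)
  rcases hv with rfl | ⟨j, rfl⟩
  · exact ge_of_inj (fun j => some (Sum.inr j)) (fun _ _ e => by simpa using e)
      (fun i => ⟨by simp [H, rel], by simp⟩)
  · refine ge_of_inj (fun i => if i = j then some (Sum.inl a) else some (Sum.inr i)) ?_ ?_
    · intro x y e
      by_cases hx : x = j <;> by_cases hy : y = j <;> simp [hx, hy] at e ⊢
      exact e
    · intro i
      by_cases hi : i = j
      · simp [hi, H, rel]
      · simp [hi, H, rel, Ne.symm hi]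

theorem drop (d : ℕ) (x : Fin (d + 1)) :
    ¬ Degen (H (d + 1)) d (Finset.univ.erase (some (Sum.inr x))) := by
  intro h
  obtain ⟨v, hv, hc⟩ := h _ (Finset.Subset.refl _) ⟨none, by simp⟩
  refine absurd (le_trans ?_ hc) (Nat.not_succ_le_self d)
  rcases v with _ | a | j
  · exact ge_of_inj (fun j => some (Sum.inl j)) (fun _ _ e => by simpa using e)
      (fun i => ⟨by simp [H, rel], by simp⟩)
  · refine ge_of_inj (fun i => if i = x then none else some (Sum.inr i)) ?_ ?_
    · intro y z e
      by_cases hy : y = x <;> by_cases hz : z = x <;> simp [hy, hz] at e ⊢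
      exact e
    · intro i
      by_cases hi : i = x
      · simp [hi, H, rel]
      · simp [hi, H, rel]
  · exact ge_of_inj (fun j => some (Sum.inl j)) (fun _ _ e => by simpa using e)
      (fun i => ⟨by simp [H, rel], by simp⟩)

theorem mono {V : Type} {G : SimpleGraph V} {d : ℕ} {S S' : Finset V} (h : S ⊆ S')
    (h' : Degen G d S') : Degen G d S := fun T hT => h' T (hT.trans h)

theorem result : ∀ d : ℕ, 1 ≤ d → ∃ (V : Type) (_ : Fintype V) (G : SimpleGraph V),
    Fintype.card V = 2 * d + 3 ∧ Degen G (d + 1) Finset.univ ∧ ¬ Degen G d Finset.univ ∧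
    ∀ S : Finset V, Degen G d S → S.card * (d + 2) < (d + 1) * Fintype.card V := by
  intro d hd
  have hc : Fintype.card (W (d + 1)) = 2 * d + 3 := by simp; omega
  refine ⟨W (d + 1), inferInstance, H (d + 1), hc, degen _, clique d _ 0 (by simp) (by simp), ?_⟩
  intro S hS
  have key : S.card ≤ 2 * d + 1 := by
    by_contra hcon
    have h1 : Sᶜ.card ≤ 1 := by rw [Finset.card_compl, hc]; omega
    by_cases h2 : ∀ j, some (Sum.inr j) ∈ S
    · by_cases h3 : some (Sum.inl 0) ∈ S
      · exact clique d S 0 h3 h2 hS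
      · refine clique d S (Fin.last d) ?_ h2 hS
        by_contra h4
        have := Finset.card_le_one.1 h1 _ (Finset.mem_compl.2 h3) _ (Finset.mem_compl.2 h4)
        simp only [Option.some.injEq, Sum.inl.injEq] at this
        have := congrArg Fin.val this
        simp at this
        omega
    · push Not at h2
      obtain ⟨x, hx⟩ := h2
      refine drop d x (mono ?_ hS)
      intro y hy
      by_contra h4
      exact (Finset.mem_erase.1 hy).1
        (Finset.card_le_one.1 h1 _ (Finset.mem_compl.2 h4) _ (Finset.mem_compl.2 hx))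
  rw [hc]
  nlinarith

end Pool.Agent.Results.MP_f95752_co.Counter
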